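import Pool.Agent.Helper46.WF.Strip

/-!
# A law of small diameter has small entropy; parallelograms

Tools for the rigidity statements about one pair of cells.
-/

set_option autoImplicit false

namespace Pool.Agent.Helper46.WF

open Finset Pool.Agent.Helper69.RK Pool.Agent.Helper61.GL

variable {Ω Ω' : Type} [Fintype Ω] [Fintype Ω']

theorem floor_near {a b : ℝ} (h : |a - b| ≤ 1) : ⌊b⌋ - 1 ≤ ⌊a⌋ ∧ ⌊a⌋ ≤ ⌊b⌋ + 1 := by
  have h1 := abs_le.1 h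
  constructor
  · have : ⌊b - 1⌋ ≤ ⌊a⌋ := Int.floor_mono (by linarith)
    rwa [Int.floor_sub_one] at this
  · have : ⌊a⌋ ≤ ⌊b + 1⌋ := Int.floor_mono (by linarith)
    rwa [Int.floor_add_one] at this

/-- entropy of the cells of `V` if `V` is near a point up to the probability `δ` -/
theorem Hh_small (w : Ω → ℝ) (hw : ∀ ω, 0 ≤ w ω) (hm : ∑ ω, w ω = 1) (R1 : ℕ) (V : Ω → Fin 2 → ℝ)
    (hV : ∀ ω, w ω ≠ 0 → ∀ i, 0 ≤ V ω i ∧ V ω i < 1) (v0 : Fin 2 → ℝ) {δ : ℝ}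
    (h : Pw w (fun ω => ¬ ∀ i, |V ω i - v0 i| ≤ (1 / 2) ^ R1) ≤ δ) :
    Hh w (fun ω => cel R1 (V ω)) ≤ 5 + δ * (2 * R1) := by
  classical
  have pr : (2 : ℝ) ^ R1 * (1 / 2) ^ R1 = 1 := by rw [← mul_pow]; norm_num
  have p : (0 : ℝ) < 2 ^ R1 := by positivity
  have h1 := Hh_exc w hw hm (fun ω => cel R1 (V ω)) (fun ω => ∀ i, |V ω i - v0 i| ≤ (1 / 2) ^ R1)
    (Fintype.piFinset (fun i => Finset.Icc (cel R1 v0 i - 1) (cel R1 v0 i + 1))) (allc R1)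
    (N1 := 2 ^ 4) (N2 := 2 ^ (2 * R1)) (δ := δ) (by norm_num) (one_le_pow₀ (by norm_num))
    (fun ω _ h => by
      rw [Fintype.mem_piFinset]
      intro i
      rw [Finset.mem_Icc]
      refine floor_near ?_
      rw [← mul_sub, abs_mul, abs_of_pos p]
      calc (2 : ℝ) ^ R1 * |V ω i - v0 i| ≤ 2 ^ R1 * (1 / 2) ^ R1 :=
            mul_le_mul_of_nonneg_left (h i) p.le
        _ = 1 := pr)
    (by
      rw [Fintype.card_piFinset]
      simp only [Int.card_Icc, Fin.prod_univ_two]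
      have e : ∀ a : ℤ, (a + 1 + 1 - (a - 1)).toNat = 3 := by
        intro a
        have : a + 1 + 1 - (a - 1) = 3 := by ring
        rw [this]
        rfl
      rw [e, e]
      norm_num)
    (fun ω h0 => cel_mem (hV ω h0)) (le_of_eq (allc_card R1)) h
  rw [logb_two_pow, logb_two_pow] at h1
  push_cast at h1
  linarith

/-- a law with some entropy at the scale `2 ^ (-R1)` is not near a point -/
theorem diam_false (w : Ω → ℝ) (hw : ∀ ω, 0 ≤ w ω) (hm : ∑ ω, w ω = 1) (R1 : ℕ) (hR : 21 ≤ R1)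
    (V : Ω → Fin 2 → ℝ) (hV : ∀ ω, w ω ≠ 0 → ∀ i, 0 ≤ V ω i ∧ V ω i < 1)
    (hH : (R1 : ℝ) / 2 ≤ Hh w (fun ω => cel R1 (V ω))) (v0 : Fin 2 → ℝ)
    (h : Pw w (fun ω => ¬ ∀ i, |V ω i - v0 i| ≤ (1 / 2) ^ R1) ≤ 1 / 8) : False := by
  have h1 := Hh_small w hw hm R1 V hV v0 h
  have h2 : (21 : ℝ) ≤ R1 := by exact_mod_cast hR
  linarith

theorem om_solve (a b x : Fin 2 → ℝ) (i : Fin 2) : x i * om a b = om x b * a i - om x a * b i := by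
  fin_cases i
  · show x 0 * om a b = om x b * a 0 - om x a * b 0
    unfold om
    ring
  · show x 1 * om a b = om x b * a 1 - om x a * b 1
    unfold om
    ring

/-- a law with some entropy at the scale `2 ^ (-R1)` is not in a small parallelogram -/
theorem par_false (w : Ω → ℝ) (hw : ∀ ω, 0 ≤ w ω) (hm : ∑ ω, w ω = 1) (R1 : ℕ) (hR : 21 ≤ R1)
    (V : Ω → Fin 2 → ℝ) (hV : ∀ ω, w ω ≠ 0 → ∀ i, 0 ≤ V ω i ∧ V ω i < 1)
    (hH : (R1 : ℝ) / 2 ≤ Hh w (fun ω => cel R1 (V ω))) (v0 a b : Fin 2 → ℝ) (hab : om a b ≠ 0)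
    (ρ1 ρ2 : ℝ)
    (h : Pw w (fun ω => ¬ (|om (V ω - v0) a| ≤ ρ1 ∧ |om (V ω - v0) b| ≤ ρ2)) ≤ 1 / 8)
    (hs : ∀ i, ρ2 * |a i| + ρ1 * |b i| ≤ (1 / 2) ^ R1 * |om a b|) : False := by
  refine diam_false w hw hm R1 hR V hV hH v0 ((Pw_mono w hw ?_).trans h)
  intro ω _ hn hc
  apply hn
  intro i
  have hp : 0 < |om a b| := abs_pos.2 hab
  have h1 : |V ω i - v0 i| * |om a b| ≤ (1 / 2) ^ R1 * |om a b| := by
    rw [← abs_mul]
    have e := om_solve a b (V ω - v0) i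
    rw [Pi.sub_apply] at e
    rw [e]
    refine (abs_sub _ _).trans ?_
    rw [abs_mul, abs_mul]
    have h2 := mul_le_mul_of_nonneg_right hc.1 (abs_nonneg (b i))
    have h3 := mul_le_mul_of_nonneg_right hc.2 (abs_nonneg (a i))
    linarith [hs i]
  exact le_of_mul_le_mul_right h1 hp

/-- the same for two strips without a common centre -/
theorem strips_false (w : Ω → ℝ) (hw : ∀ ω, 0 ≤ w ω) (hm : ∑ ω, w ω = 1) (R1 : ℕ) (hR : 21 ≤ R1)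
    (V : Ω → Fin 2 → ℝ) (hV : ∀ ω, w ω ≠ 0 → ∀ i, 0 ≤ V ω i ∧ V ω i < 1)
    (hH : (R1 : ℝ) / 2 ≤ Hh w (fun ω => cel R1 (V ω))) (a b : Fin 2 → ℝ) (hab : om a b ≠ 0)
    (c1 c2 ρ1 ρ2 : ℝ)
    (h1 : Pw w (fun ω => ρ1 < |om (V ω) a - c1|) ≤ 1 / 16)
    (h2 : Pw w (fun ω => ρ2 < |om (V ω) b - c2|) ≤ 1 / 16)
    (hs : ∀ i, 2 * ρ2 * |a i| + 2 * ρ1 * |b i| ≤ (1 / 2) ^ R1 * |om a b|) : False := by
  have h3 : Pw w (fun ω => ¬ (|om (V ω) a - c1| ≤ ρ1 ∧ |om (V ω) b - c2| ≤ ρ2)) ≤ 1 / 8 := by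
    refine (Pw_mono w hw (B := fun ω => ρ1 < |om (V ω) a - c1| ∨ ρ2 < |om (V ω) b - c2|)
      ?_).trans ((Pw_or w hw _ _).trans ?_)
    · intro ω _ hn
      simp only [not_and_or, not_le] at hn
      exact hn
    · linarith
  have h4 := Pw_compl w hm (fun ω => |om (V ω) a - c1| ≤ ρ1 ∧ |om (V ω) b - c2| ≤ ρ2)
  obtain ⟨ω0, -, h5, h6⟩ := Pw_exists w (A := fun ω => |om (V ω) a - c1| ≤ ρ1 ∧
    |om (V ω) b - c2| ≤ ρ2) (by linarith)
  refine par_false w hw hm R1 hR V hV hH (V ω0) a b hab (2 * ρ1) (2 * ρ2)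
    ((Pw_mono w hw ?_).trans h3) hs
  intro ω _ hn hc
  apply hn
  rw [om_sub, om_sub]
  have g1 := abs_le.1 h5
  have g2 := abs_le.1 h6
  have g3 := abs_le.1 hc.1
  have g4 := abs_le.1 hc.2
  constructor
  · rw [abs_le]; constructor <;> linarith
  · rw [abs_le]; constructor <;> linarith

theorem abs_le_one_of_sq {θ : Fin 2 → ℝ} (h : θ 0 ^ 2 + θ 1 ^ 2 = 1) (i : Fin 2) : |θ i| ≤ 1 := by
  rw [abs_le_one_iff_mul_self_le_one]
  fin_cases i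
  · show θ 0 * θ 0 ≤ 1
    nlinarith [sq_nonneg (θ 1)]
  · show θ 1 * θ 1 ≤ 1
    nlinarith [sq_nonneg (θ 0)]

end Pool.Agent.Helper46.WF
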