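import Pool.Agent.Helper92.W.St
import Pool.Agent.Helper46.W.Small

/-! G2: the direction of a pair of cells -/

set_option autoImplicit false

namespace Pool.Agent.Helper92.W

open Finset Pool.Agent.Helper69.RK Pool.Agent.Helper61.GL Pool.Agent.Helper46.WF

theorem st_G2 : ST_G2 := by
  classical
  refine ⟨21, ?_⟩
  intro R1 R σ hR1 hR hσ hσ1 Ω Ω' _ _ w V w' Y hw hm hV hw' hm' hY hs hHV hHY hH1
  obtain ⟨W1, W2, hC⟩ := core_exists w hw V hV w' Y hY R hσ.le
  obtain ⟨ω2, h0, h2⟩ := good_second w hw V w' hw' hm' Y R hσ hs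
  have hD0 : 0 < |om W1 W2| := by
    by_contra h
    have h1 : |om W1 W2| = 0 := le_antisymm (not_lt.1 h) (abs_nonneg _)
    have := hC.lo
    rw [h1, mul_zero] at this
    linarith
  have hR' : (16 : ℝ) * R1 ≤ R := by exact_mod_cast hR
  have hR1' : (21 : ℝ) ≤ R1 := by exact_mod_cast hR1
  -- `D` is small
  have hD : |om W1 W2| ≤ 4 * (1 / 2) ^ (R / 2) := by
    have h3 := core_V w hw hm V hV w' Y R hC
    have e1 : Real.logb 2 (100 / |om W1 W2|) = Real.logb 2 100 - Real.logb 2 |om W1 W2| :=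
      Real.logb_div (by norm_num) hD0.ne'
    have e3 := logb_100
    rw [e1] at h3
    have h4 : 4 * σ * R ≤ 4 * (1 / 64) * R := by
      have : (0 : ℝ) ≤ R := by positivity
      nlinarith
    have h5 : Real.logb 2 |om W1 W2| ≤ Real.logb 2 (4 * (1 / 2) ^ (R / 2)) := by
      have e4 : Real.logb 2 (4 * (1 / 2 : ℝ) ^ (R / 2)) = 2 - ((R / 2 : ℕ) : ℝ) := by
        rw [Real.logb_mul (by norm_num) (by positivity), one_div, inv_pow, Real.logb_inv,
          logb_two_pow, show (4 : ℝ) = 2 ^ (2 : ℕ) by norm_num, logb_two_pow]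
        push_cast
        ring
      rw [e4]
      have h6 : ((R / 2 : ℕ) : ℝ) ≤ (R : ℝ) / 2 := Nat.cast_div_le
      linarith
    exact (Real.logb_le_logb (by norm_num) hD0 (by positivity)).1 h5
  -- one of the vectors is long
  have hlong : ∃ W : Fin 2 → ℝ, (W = W1 ∨ W = W2) ∧ (1 / 2) ^ (R1 + 1) < n1 W := by
    by_contra hcon
    push Not at hcon
    have k1 := hcon W1 (Or.inl rfl)
    have k2 := hcon W2 (Or.inr rfl)
    refine par_false w' hw' hm' R1 hR1 Y hY hH1 (Y ω2) W1 W2 (abs_pos.1 hD0) |om W1 W2|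
      |om W1 W2| ?_ ?_
    · refine (Pw_mono w' hw' (B := fun ω1 => σ < na w V ((1 / 2) ^ R) (Y ω1 - Y ω2)) ?_).trans
        (h2.trans (by linarith))
      intro ω hω hn
      by_contra h4
      exact hn (hC.mx ω ω2 hω h0 (not_lt.1 h4))
    · intro i
      have p1 : |W1 i| ≤ n1 W1 := by
        unfold n1
        fin_cases i
        · show |W1 0| ≤ |W1 0| + |W1 1|
          linarith [abs_nonneg (W1 1)]
        · show |W1 1| ≤ |W1 0| + |W1 1|
          linarith [abs_nonneg (W1 0)]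
      have p2 : |W2 i| ≤ n1 W2 := by
        unfold n1
        fin_cases i
        · show |W2 0| ≤ |W2 0| + |W2 1|
          linarith [abs_nonneg (W2 1)]
        · show |W2 1| ≤ |W2 0| + |W2 1|
          linarith [abs_nonneg (W2 0)]
      have q : (1 / 2 : ℝ) ^ (R1 + 1) + (1 / 2) ^ (R1 + 1) = (1 / 2) ^ R1 := by
        rw [pow_succ]
        ring
      rw [← mul_add, mul_comm ((1 / 2 : ℝ) ^ R1)]
      refine mul_le_mul_of_nonneg_left ?_ hD0.le
      linarith
  obtain ⟨W, hW, hWl⟩ := hlong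
  -- the Euclidean length
  set L : ℝ := Real.sqrt (W 0 ^ 2 + W 1 ^ 2) with hL
  have hLsq : L ^ 2 = W 0 ^ 2 + W 1 ^ 2 := Real.sq_sqrt (by positivity)
  have hL0 : 0 ≤ L := Real.sqrt_nonneg _
  have hL1 : n1 W ≤ 2 * L := by
    unfold n1
    have h1 : |W 0| ≤ L := Real.abs_le_sqrt (by nlinarith [sq_nonneg (W 1)])
    have h3 : |W 1| ≤ L := Real.abs_le_sqrt (by nlinarith [sq_nonneg (W 0)])
    linarith
  have hpw : (0 : ℝ) < (1 / 2) ^ (R1 + 1) := by positivity
  have hLpos : 0 < L := by linarith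
  have hom : ∀ x : Fin 2 → ℝ, om x (fun i => W i / L) = om x W / L := by
    intro x
    unfold om
    ring
  -- the radius
  have hrad : 4 * (1 / 2) ^ (R / 2) ≤ 2 ^ (R1 + 4) * (1 / 2) ^ (R / 2) * L := by
    have q : (0 : ℝ) < (1 / 2) ^ (R / 2) := by positivity
    have h5 : (4 : ℝ) ≤ 2 ^ (R1 + 4) * L := by
      have h6 : (2 : ℝ) ^ (R1 + 4) * ((1 / 2) ^ (R1 + 1) / 2) = 4 := by
        have : (2 : ℝ) ^ (R1 + 4) * ((1 / 2) ^ (R1 + 1) / 2) =
            (2 ^ R1 * (1 / 2) ^ R1) * 4 := by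
          rw [pow_add, pow_succ]
          ring
        rw [this, ← mul_pow]
        norm_num
      rw [← h6]
      refine mul_le_mul_of_nonneg_left ?_ (by positivity)
      linarith
    calc 4 * (1 / 2 : ℝ) ^ (R / 2) ≤ (2 ^ (R1 + 4) * L) * (1 / 2) ^ (R / 2) :=
          mul_le_mul_of_nonneg_right h5 q.le
      _ = _ := by ring
  refine ⟨fun i => W i / L, ?_, ?_, ?_⟩
  · show (W 0 / L) ^ 2 + (W 1 / L) ^ 2 = 1
    rw [div_pow, div_pow, ← add_div, ← hLsq, div_self (by positivity)]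
  · -- `V`
    obtain ⟨c, -, hc⟩ := na_attained w V ((1 / 2) ^ R) W
    have hna : na w V ((1 / 2) ^ R) W ≤ σ := by
      rcases hW with rfl | rfl
      · exact hC.a1
      · exact hC.a2
    rw [hc] at hna
    refine ⟨c / L, (Pw_mono w hw ?_).trans (hna.trans (by linarith))⟩
    intro ω _ h
    rw [hom, ← sub_div, abs_div, abs_of_pos hLpos, lt_div_iff₀ hLpos] at h
    refine lt_of_le_of_lt ?_ h
    refine le_trans ?_ hrad
    have h5 : (1 / 2 : ℝ) ^ R ≤ (1 / 2) ^ (R / 2) :=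
      pow_le_pow_of_le_one (by norm_num) (by norm_num) (Nat.div_le_self R 2)
    have q : (0 : ℝ) < (1 / 2) ^ (R / 2) := by positivity
    linarith
  · -- `Y`
    refine ⟨om (Y ω2) W / L, (Pw_mono w' hw'
      (B := fun ω1 => σ < na w V ((1 / 2) ^ R) (Y ω1 - Y ω2)) ?_).trans (h2.trans (by linarith))⟩
    intro ω hω h
    by_contra h4
    have h5 := hC.mx ω ω2 hω h0 (not_lt.1 h4)
    rw [hom, ← sub_div, abs_div, abs_of_pos hLpos, lt_div_iff₀ hLpos, ← om_sub] at h
    have h6 : |om (Y ω - Y ω2) W| ≤ |om W1 W2| := by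
      rcases hW with rfl | rfl
      · exact h5.1
      · exact h5.2
    have h7 := hD.trans hrad
    linarith

end Pool.Agent.Helper92.W
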