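import Pool.Agent.Helper92.W.St
import Pool.Agent.Helper46.W.Small

/-! G3 (uniqueness of the direction), G5 (a strip is not atomic for vectors with an angle) -/

set_option autoImplicit false

namespace Pool.Agent.Helper92.W

open Finset Pool.Agent.Helper69.RK Pool.Agent.Helper61.GL Pool.Agent.Helper46.WF

theorem st_G3 : ST_G3 := by
  refine ⟨21, ?_⟩
  intro R1 hR1 Ω _ w V hw hm hV hH θ θ' r hθ hθ' hr ⟨c, hc⟩ ⟨c', hc'⟩
  by_contra hcon
  rw [not_le] at hcon
  have p : (0 : ℝ) < 2 ^ (R1 + 4) * r := by positivity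
  have hne : om θ θ' ≠ 0 := by
    intro h0
    rw [h0, abs_zero] at hcon
    linarith
  refine strips_false w hw hm R1 hR1 V hV hH θ θ' hne c c' r r hc hc' ?_
  intro i
  have h1 := abs_le_one_of_sq hθ i
  have h2 := abs_le_one_of_sq hθ' i
  have q : (0 : ℝ) < (1 / 2) ^ R1 := by positivity
  have h3 : (1 / 2 : ℝ) ^ R1 * (2 ^ (R1 + 4) * r) = 16 * r := by
    rw [pow_add, ← mul_assoc, ← mul_assoc, ← mul_pow]
    norm_num
  have h4 := mul_le_mul_of_nonneg_left hcon.le q.le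
  rw [h3] at h4
  have h5 := mul_le_mul_of_nonneg_left h1 hr.le
  have h6 := mul_le_mul_of_nonneg_left h2 hr.le
  linarith

theorem st_G5 : ST_G5 := by
  refine ⟨21, ?_⟩
  intro R1 ρ hR1 Ω _ w V hw hm hV hH θ U r hθ hU hr ⟨c, hc⟩ hna
  obtain ⟨c', -, hc'⟩ := na_attained w V ((1 / 2) ^ ρ) U
  rw [hc'] at hna
  by_contra hcon
  rw [not_le] at hcon
  have pρ : (0 : ℝ) < (1 / 2) ^ ρ := by positivity
  have p : (0 : ℝ) < 2 ^ (R1 + 10) * (r + (1 / 2) ^ ρ) := by positivity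
  have hne : om θ U ≠ 0 := by
    intro h0
    rw [h0, abs_zero] at hcon
    linarith
  refine strips_false w hw hm R1 hR1 V hV hH θ U hne c c' r ((1 / 2) ^ ρ) hc hna ?_
  intro i
  have h1 := abs_le_one_of_sq hθ i
  have h2 := hU i
  have q : (0 : ℝ) < (1 / 2) ^ R1 := by positivity
  have h3 : (1 / 2 : ℝ) ^ R1 * (2 ^ (R1 + 10) * (r + (1 / 2) ^ ρ)) = 1024 * (r + (1 / 2) ^ ρ) := by
    rw [pow_add, ← mul_assoc, ← mul_assoc, ← mul_pow]
    norm_num
  have h4 := mul_le_mul_of_nonneg_left hcon.le q.le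
  rw [h3] at h4
  have h5 := mul_le_mul_of_nonneg_left h1 pρ.le
  have h6 := mul_le_mul_of_nonneg_left h2 hr.le
  linarith

end Pool.Agent.Helper92.W
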