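import Pool.Agent.Helper92.W.St
import Pool.Agent.Helper46.W.Small

/-! G4: inheritance of strips by most subcells -/

set_option autoImplicit false

namespace Pool.Agent.Helper46.WF

open Finset Pool.Agent.Helper69.RK Pool.Agent.Helper61.GL

/-- conditioning in two steps -/
theorem cw_cw {Ω γ δ : Type} [Fintype Ω] (μ : Ω → ℝ) (hμ : ∀ ω, 0 ≤ μ ω) (G : Ω → γ) (H : Ω → δ)
    (href : ∀ ω ω', H ω = H ω' → G ω = G ω') {ω ω' : Ω} (h0 : μ ω ≠ 0) (h : G ω' = G ω) :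
    cw (cw μ G ω) H ω' = cw μ H ω' := by
  classical
  funext x
  have hP := e1_pr_pos μ G hμ ω h0
  have e1 : pr (cw μ G ω) H ω' = pr μ H ω' / pr μ G ω := by
    rw [e1_pr_eq, e1_pr_eq, Finset.sum_div]
    refine Finset.sum_congr rfl fun y _ => ?_
    unfold cw
    by_cases k : H y = H ω'
    · rw [if_pos k, if_pos k, if_pos ((href y ω' k).trans h)]
    · rw [if_neg k, if_neg k, zero_div]
  unfold cw at e1 ⊢
  rw [e1]
  by_cases k : H x = H ω'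
  · rw [if_pos k, if_pos k, if_pos ((href x ω' k).trans h)]
    field_simp
  · rw [if_neg k, if_neg k]
    simp

theorem Pw_eq_sum {Ω : Type} [Fintype Ω] (w : Ω → ℝ) (A : Ω → Prop) [DecidablePred A] :
    Pw w A = ∑ ω, w ω * (if A ω then 1 else 0) := by
  unfold Pw
  refine Finset.sum_congr rfl fun ω _ => ?_
  by_cases h : A ω <;> simp [h]

end Pool.Agent.Helper46.WF

namespace Pool.Agent.Helper92.W

open Finset Pool.Agent.Helper69.RK Pool.Agent.Helper61.GL Pool.Agent.Helper46.WF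

theorem cel_ref {l : ℕ} {x y : Fin 2 → ℝ} (h : cel (l + 1) x = cel (l + 1) y) : cel l x = cel l y := by
  funext i
  have h1 : ⌊(2 : ℝ) ^ (l + 1) * x i⌋ = ⌊(2 : ℝ) ^ (l + 1) * y i⌋ := congrFun h i
  show ⌊(2 : ℝ) ^ l * x i⌋ = ⌊(2 : ℝ) ^ l * y i⌋
  have key : ∀ t : ℝ, ⌊t⌋ = ⌊2 * t⌋ / 2 := by
    intro t
    have := Int.floor_div_natCast (2 * t) 2
    rw [show (2 * t / ((2 : ℕ) : ℝ)) = t by push_cast; ring] at this
    rw [this]
    rfl
  rw [key, key ((2 : ℝ) ^ l * y i)]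
  have e : ∀ t : ℝ, 2 * ((2 : ℝ) ^ l * t) = 2 ^ (l + 1) * t := by
    intro t
    rw [pow_succ]
    ring
  rw [e, e, h1]

theorem fr_succ (l : ℕ) (x : Fin 2 → ℝ) (i : Fin 2) :
    fr (l + 1) x i = 2 * fr l x i - ((cel (l + 1) x i : ℝ) - 2 * (cel l x i : ℝ)) := by
  show Int.fract ((2 : ℝ) ^ (l + 1) * x i) = 2 * Int.fract ((2 : ℝ) ^ l * x i) -
    ((⌊(2 : ℝ) ^ (l + 1) * x i⌋ : ℝ) - 2 * (⌊(2 : ℝ) ^ l * x i⌋ : ℝ))
  unfold Int.fract
  rw [pow_succ]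
  ring

theorem st_G4 : ST_G4 := by
  classical
  intro Ω _ μ X hμ l ω h0 θ r e he ⟨c, hc⟩
  set A : Ω → Prop := fun ω' => r < |om (fr l (X ω')) θ - c| with hA
  have hw : ∀ ω', 0 ≤ lw μ X l ω ω' := cw_nonneg μ _ hμ ω
  -- the two step average
  have h1 := cw_expect (lw μ X l ω) hw (fun ω' => cel (l + 1) (X ω'))
    (fun ω' => if A ω' then (1 : ℝ) else 0)
  have h2 : ∀ ω', lw μ X l ω ω' ≠ 0 →
      cw (lw μ X l ω) (fun ω'' => cel (l + 1) (X ω'')) ω' = lw μ X (l + 1) ω' := by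
    intro ω' h
    have h3 := cw_ne_zero μ _ h
    exact cw_cw μ hμ (fun ω'' => cel l (X ω'')) (fun ω'' => cel (l + 1) (X ω''))
      (fun ω1 ω2 h => cel_ref h) h0 h3.1
  have h3 : ∑ ω', lw μ X l ω ω' * Pw (lw μ X (l + 1) ω') A ≤ e ^ 2 := by
    have h4 : ∑ ω', lw μ X l ω ω' * Pw (lw μ X (l + 1) ω') A =
        ∑ ω', lw μ X l ω ω' * ∑ ω'', cw (lw μ X l ω) (fun ω'' => cel (l + 1) (X ω'')) ω' ω'' *
          (if A ω'' then (1 : ℝ) else 0) := by
      refine Finset.sum_congr rfl fun ω' _ => ?_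
      by_cases h5 : lw μ X l ω ω' = 0
      · rw [h5, zero_mul, zero_mul]
      · rw [h2 ω' h5, Pw_eq_sum]
    rw [h4, h1, ← Pw_eq_sum]
    exact hc
  have h4 := Pw_markov (lw μ X l ω) hw (fun ω' => Pw (lw μ X (l + 1) ω') A)
    (fun ω' _ => Pw_nonneg _ (cw_nonneg μ _ hμ ω') _) he h3
  have h5 : e ^ 2 / e = e := by rw [sq, mul_div_assoc, div_self he.ne', mul_one]
  rw [h5] at h4
  refine (Pw_mono _ hw ?_).trans h4
  intro ω' hω' hn
  by_contra hle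
  rw [not_lt] at hle
  apply hn
  -- the digit of the subcell
  set d : Fin 2 → ℝ := fun i => (cel (l + 1) (X ω') i : ℝ) - 2 * (cel l (X ω') i : ℝ) with hd
  refine ⟨2 * c - om d θ, (Pw_mono _ (cw_nonneg μ _ hμ ω') ?_).trans hle⟩
  intro ω'' h6 h7
  have h8 : cel (l + 1) (X ω'') = cel (l + 1) (X ω') := (cw_ne_zero μ _ h6).1
  have h9 : cel l (X ω'') = cel l (X ω') := cel_ref h8
  have h10 : om (fr (l + 1) (X ω'')) θ - (2 * c - om d θ) = 2 * (om (fr l (X ω'')) θ - c) := by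
    unfold om
    rw [fr_succ, fr_succ, h8, h9]
    ring
  rw [h10, abs_mul, abs_of_pos (by norm_num : (0 : ℝ) < 2)] at h7
  show r < |om (fr l (X ω'')) θ - c|
  linarith

end Pool.Agent.Helper92.W
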